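import Pool.Agent.MP_9fba86_co.Graph
import Pool.Agent.MP_9fba86_co.Colour

set_option autoImplicit false

namespace Pool.Agent.Results.MP_9fba86_co.LinearDegree

open Pool.Agent.MP_9fba86_co

/-- `c` is an odd edge colouring of `G` with `k` colours: the number of edges of each colour at each
vertex is zero or odd. -/
def IsOddColouring {V : Type} (G : SimpleGraph V) (k : ℕ) (c : G.edgeSet → Fin k) : Prop :=
  ∀ (v : V) (i : Fin k), {e : G.edgeSet | v ∈ (e : Sym2 V) ∧ c e = i}.ncard = 0 ∨
    Odd {e : G.edgeSet | v ∈ (e : Sym2 V) ∧ c e = i}.ncard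

theorem degree_strong (m : ℕ) (hm : 1 ≤ m) (v : Vt m) : 2 * m + 1 ≤ ((tri m).neighborSet v).ncard := by
  have hsum : ∀ c : Sym2 (Vt m) → Fin 3, D m c v 0 ≤ ((tri m).neighborSet v).ncard := by
    intro c
    exact Set.ncard_le_ncard (fun w hw => hw.1) (Set.toFinite _)
  have h0 := hsum (fun _ => 0)
  rcases v with a | ⟨j, x⟩
  · have h1 : D m (fun _ => 0) (Sum.inl a) 0 = 2 * m + 2 * m := by
      rw [D_hub]
      unfold H
      simp
    omega
  · have h1 := D_piece_total m (fun _ => 0) j x
    have h2 : D m (fun _ => 0) (Sum.inr (j, x)) 1 = 0 := by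
      unfold D
      simp
    have h3 : D m (fun _ => 0) (Sum.inr (j, x)) 2 = 0 := by
      unfold D
      simp
    omega

/-- For every `m ≥ 1` there is a 2-connected graph of odd order `6 m + 3` and minimum degree at least
`2 m + 1` (a third of the order) which has no odd edge colouring with three or fewer colours. -/
theorem result (m : ℕ) (hm : 1 ≤ m) :
    ∃ (V : Type) (_ : Fintype V) (G : SimpleGraph V),
      Fintype.card V = 6 * m + 3 ∧ G.Connected ∧ (∀ v : V, (G.induce {w : V | w ≠ v}).Connected) ∧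
      (∀ v : V, 2 * m + 1 ≤ (G.neighborSet v).ncard) ∧
      ∀ k : ℕ, k ≤ 3 → ¬ ∃ c : G.edgeSet → Fin k, IsOddColouring G k c := by
  refine ⟨Vt m, inferInstance, tri m, ?_, connected m hm, connected_remove m hm, degree_strong m hm, ?_⟩
  · rw [card_Vt]
    ring
  · rintro k hk ⟨c, hc⟩
    let c' : Sym2 (Vt m) → Fin 3 := fun e =>
      if h : e ∈ (tri m).edgeSet then Fin.castLE hk (c ⟨e, h⟩) else 0
    refine main_contra m c' hm ?_
    intro v i
    unfold D
    have key : ∀ j : Fin k, Fin.castLE hk j = i →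
        {w : Vt m | (tri m).Adj v w ∧ c' s(v, w) = i}.ncard =
          {e : (tri m).edgeSet | v ∈ (e : Sym2 (Vt m)) ∧ c e = j}.ncard := by
      intro j hj
      refine Set.ncard_congr (fun w hw => (⟨s(v, w), hw.1⟩ : (tri m).edgeSet)) ?_ ?_ ?_
      · intro w hw
        refine ⟨Sym2.mem_mk_left v w, ?_⟩
        have h1 := hw.2
        have h2 : c' s(v, w) = Fin.castLE hk (c ⟨s(v, w), hw.1⟩) :=
          dif_pos (show s(v, w) ∈ (tri m).edgeSet from hw.1)
        exact Fin.castLE_injective hk ((h2.symm.trans h1).trans hj.symm)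
      · intro w w' hw hw' h
        have h1 : s(v, w) = s(v, w') := congrArg Subtype.val h
        exact Sym2.congr_right.1 h1
      · rintro ⟨e, he⟩ ⟨hv, hce⟩
        obtain ⟨w, hw⟩ := hv
        have hw' : e = s(v, w) := hw
        subst hw'
        refine ⟨w, ⟨he, ?_⟩, rfl⟩
        simp only [c']
        rw [dif_pos he, hce, hj]
    by_cases hi : (i : ℕ) < k
    · rw [key ⟨i, hi⟩ rfl]
      exact hc v ⟨i, hi⟩
    · left
      rw [Set.ncard_eq_zero (Set.toFinite _), Set.eq_empty_iff_forall_notMem]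
      rintro w ⟨hw, hwi⟩
      simp only [c'] at hwi
      rw [dif_pos (show s(v, w) ∈ (tri m).edgeSet from hw)] at hwi
      apply hi
      rw [← hwi]
      exact (c ⟨s(v, w), hw⟩).2

end Pool.Agent.Results.MP_9fba86_co.LinearDegree
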